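import Pool.Agent.helper19.FR.Spec

/-!
# Row fr:MOD (project FR, MP_bf63dc_nt)
-/

set_option autoImplicit false

namespace Pool.Agent.FR

open Finset Real Pool.Agent.AT Pool.Agent.OM Pool.Agent.helper85.FC

/-- all forms in `I` are prime simultaneously infinitely often -/
def MOD_Good {k : ℕ} (f : Fin k → ℕ × ℤ) (I : Finset (Fin k)) : Prop :=
  ∀ N : ℕ, ∃ n ≥ N, ∀ i ∈ I, (ev (f i) n).Prime

/-- the tuple of forms -/
def MOD_f {k : ℕ} (s : Fin k → ℕ) (P : ℕ) (x : Fin k → ℕ) : Fin k → ℕ × ℤ := fun i => (s i, 1 + (P : ℤ) * x i)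

theorem MOD_many {k : ℕ} (f : Fin k → ℕ × ℤ) (h : Many f) :
    ∃ I : Finset (Fin k), (1 / 4 + 1 / 500000 : ℝ) * k < #I ∧ MOD_Good f I := by
  classical
  by_contra hc
  have hc' : ∀ I : Finset (Fin k), (1 / 4 + 1 / 500000 : ℝ) * k < #I →
      ∃ N : ℕ, ∀ n ≥ N, ¬ ∀ i ∈ I, (ev (f i) n).Prime := by
    intro I hI
    by_contra h2
    apply hc
    refine ⟨I, hI, ?_⟩
    intro N
    by_contra h3
    apply h2
    refine ⟨N, ?_⟩
    intro n hn h4
    exact h3 ⟨n, hn, h4⟩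
  choose! m hm using hc'
  obtain ⟨n, hn, hh⟩ := h ((Finset.univ : Finset (Finset (Fin k))).sup m)
  have h5 := hm {i : Fin k | (ev (f i) n).Prime} hh n
    (le_trans (Finset.le_sup (f := m) (Finset.mem_univ _)) hn)
  apply h5
  intro i hi
  exact (Finset.mem_filter.mp hi).2

theorem MOD_adm {k : ℕ} (s : Fin k → ℕ) (P : ℕ) (hP : ∀ p : ℕ, p.Prime → p ≤ k → p ∣ P)
    (hsP : ∀ i, s i ∣ P) (x : Fin k → ℕ) : Adm (MOD_f s P x) := by
  classical
  intro p hp
  by_cases hpP : p ∣ P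
  · refine ⟨0, ?_⟩
    intro i h
    simp only [ MOD_f, Nat.cast_zero, mul_zero, zero_add] at h
    have h2 : (p : ℤ) ∣ (P : ℤ) * x i := (Int.natCast_dvd_natCast.mpr hpP).mul_right _
    have h3 : (p : ℤ) ∣ 1 := by
      have := dvd_sub h h2
      simpa using this
    have h4 : p ∣ 1 := by exact_mod_cast h3
    exact hp.one_lt.ne' (Nat.dvd_one.mp h4)
  · have hpk : k < p := by
      by_contra h
      exact hpP (hP p hp (by omega))
    by_contra hcon
    have hcon' : ∀ n : ℕ, ∃ i : Fin k, (p : ℤ) ∣ (s i : ℤ) * n + (1 + (P : ℤ) * x i) := by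
      intro n
      by_contra h
      apply hcon
      refine ⟨n, ?_⟩
      intro i hi
      exact h ⟨i, hi⟩
    choose g hg using hcon'
    have hcard : #(Finset.range p) ≤ #(Finset.univ : Finset (Fin k)) := by
      apply Finset.card_le_card_of_injOn g
      · intro n _
        exact Finset.mem_coe.mpr (Finset.mem_univ _)
      · intro n hn n' hn' hgg
        have a1 := hg n
        have a2 := hg n'
        rw [← hgg] at a2
        have a3 : (p : ℤ) ∣ (s (g n) : ℤ) * ((n : ℤ) - n') := by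
          have := dvd_sub a1 a2
          have e : (s (g n) : ℤ) * n + (1 + (P : ℤ) * x (g n)) - ((s (g n) : ℤ) * n' + (1 + (P : ℤ) * x (g n))) =
            (s (g n) : ℤ) * ((n : ℤ) - n') := by ring
          rwa [e] at this
        rcases (Nat.prime_iff_prime_int.mp hp).dvd_or_dvd a3 with h | h
        · exact absurd ((Int.natCast_dvd_natCast.mp h).trans (hsP (g n))) hpP
        · have b1 : n < p := Finset.mem_range.mp (Finset.mem_coe.mp hn)
          have b2 : n' < p := Finset.mem_range.mp (Finset.mem_coe.mp hn')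
          have b3 : |(n : ℤ) - n'| < p := by
            rw [abs_lt]; constructor <;> omega
          have b4 := Int.eq_zero_of_abs_lt_dvd h b3
          omega
    simp only [Finset.card_range, Finset.card_univ, Fintype.card_fin] at hcard
    omega

theorem MOD_alg (w w' P x x' : ℕ) (hw : 0 < w) :
    ((w' : ℤ) * (1 + (P : ℤ) * x) - w * (1 + (P : ℤ) * x')) / ((Nat.gcd w w' : ℕ) : ℤ) =
    (((w' / Nat.gcd w w' : ℕ) : ℤ) - ((w / Nat.gcd w w' : ℕ) : ℤ) +
      P * (((w' / Nat.gcd w w' : ℕ) : ℤ) * (x : ℤ) - ((w / Nat.gcd w w' : ℕ) : ℤ) * (x' : ℤ))) := by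
  have hg : 0 < Nat.gcd w w' := Nat.gcd_pos_of_pos_left _ hw
  obtain ⟨u, hu⟩ := Nat.gcd_dvd_left w w'
  obtain ⟨u', hu'⟩ := Nat.gcd_dvd_right w w'
  have h1 : w / Nat.gcd w w' = u := Nat.div_eq_of_eq_mul_right hg hu
  have h2 : w' / Nat.gcd w w' = u' := Nat.div_eq_of_eq_mul_right hg hu'
  rw [h1, h2]
  have h3 : (w : ℤ) = ((Nat.gcd w w' : ℕ) : ℤ) * u := by exact_mod_cast hu
  have h4 : (w' : ℤ) = ((Nat.gcd w w' : ℕ) : ℤ) * u' := by exact_mod_cast hu'
  have h5 : ((Nat.gcd w w' : ℕ) : ℤ) ≠ 0 := by exact_mod_cast hg.ne'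
  apply Int.ediv_eq_of_eq_mul_right h5
  have h6 : (w' : ℤ) * (1 + (P : ℤ) * x) - w * (1 + (P : ℤ) * x') =
    (((Nat.gcd w w' : ℕ) : ℤ) * u') * (1 + (P : ℤ) * x) - (((Nat.gcd w w' : ℕ) : ℤ) * u) * (1 + (P : ℤ) * x') := by
    rw [← h3, ← h4]
  rw [h6]
  ring

theorem MOD : MOD_stmt := by
  classical
  intro hQ hPRT W H η hW hWpos hH hη
  have hcard : Fintype.card (↥W × Fin H) = #W * H := by simp
  obtain ⟨k, hk⟩ : ∃ k : ℕ, k = #W * H := ⟨_, rfl⟩
  rw [← hk] at hcard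
  have hk1 : 1 ≤ k := by
    rw [hk]
    exact Nat.mul_pos (Finset.card_pos.mpr hW) hH
  have hkr : (#W : ℝ) * H = k := by rw [hk]; push_cast; ring
  let e : ↥W × Fin H ≃ Fin k := Fintype.equivFinOfCardEq hcard
  let s : Fin k → ℕ := fun i => ((e.symm i).1 : ℕ)
  have hs : ∀ i, 0 < s i := fun i => hWpos _ (e.symm i).1.2
  obtain ⟨P, hPdef⟩ : ∃ P : ℕ, P = (∏ w ∈ W, w) * k.factorial := ⟨_, rfl⟩
  have hPpos : 0 < P := by
    rw [hPdef]
    exact Nat.mul_pos (Finset.prod_pos hWpos) (Nat.factorial_pos k)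
  have hP1 : ∀ p : ℕ, p.Prime → p ≤ k → p ∣ P := by
    intro p hp hpk
    rw [hPdef]
    exact (Nat.dvd_factorial hp.pos hpk).mul_left _
  have hP2 : ∀ i, s i ∣ P := by
    intro i
    rw [hPdef]
    exact (Finset.dvd_prod_of_mem (fun w : ℕ => w) (e.symm i).1.2).mul_right _
  obtain ⟨C, δ, hC, hδ, hδ1, hQk⟩ := hQ k hk1
  have hlarge : ∃ X₀ : ℕ, ∀ X : ℕ, X₀ ≤ X → C * (X : ℝ) ^ (-δ) ≤ η := by
    have ht : Filter.Tendsto (fun X : ℕ => C * (X : ℝ) ^ (-δ)) Filter.atTop (nhds (C * 0)) :=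
      ((tendsto_rpow_neg_atTop hδ).comp tendsto_natCast_atTop_atTop).const_mul C
    rw [mul_zero] at ht
    have := ht.eventually (eventually_le_nhds hη)
    exact Filter.eventually_atTop.mp this
  obtain ⟨X₀, hX₀⟩ := hlarge
  refine ⟨P, max X₀ 1, hPpos, ?_⟩
  intro X hX
  have hX1 : 1 ≤ X := le_trans (le_max_right _ _) hX
  have hX2 : X₀ ≤ X := le_trans (le_max_left _ _) hX
  have hXr : (0 : ℝ) < X := by exact_mod_cast hX1
  let f : (↥W × Fin H → Fin X) → Fin k → ℕ × ℤ := fun ξ => MOD_f s P (fun i => ((ξ (e.symm i) : Fin X) : ℕ))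
  have hadm : ∀ ξ, Adm (f ξ) := fun ξ => MOD_adm s P hP1 hP2 _
  have hch : ∀ ξ : ↥W × Fin H → Fin X, ∃ I : Finset (Fin k), MOD_Good (f ξ) I ∧
      (Many (f ξ) → (1 / 4 + 1 / 500000 : ℝ) * k < #I) := by
    intro ξ
    by_cases hx : Many (f ξ)
    · obtain ⟨I, hI, hI2⟩ := MOD_many _ hx
      exact ⟨I, hI2, fun _ => hI⟩
    · refine ⟨∅, ?_, fun h => absurd h hx⟩
      intro N
      exact ⟨N, le_refl _, fun i hi => absurd hi (Finset.notMem_empty i)⟩
  choose J hJ1 hJ2 using hch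
  refine ⟨fun ξ p => if e p ∈ J ξ then 1 else 0, ?_, ?_, ?_⟩
  · intro ξ p
    show (if e p ∈ J ξ then (1 : ℝ) else 0) = 0 ∨ (if e p ∈ J ξ then (1 : ℝ) else 0) = 1
    by_cases h : e p ∈ J ξ
    · right; rw [if_pos h]
    · left; rw [if_neg h]
  · intro ξ w w' m m' hww h1 h2
    have hm1 : e (w, m) ∈ J ξ := by
      by_contra h
      have h1' : (if e (w, m) ∈ J ξ then (1 : ℝ) else 0) = 1 := h1
      rw [if_neg h] at h1'
      norm_num at h1'
    have hm2 : e (w', m') ∈ J ξ := by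
      by_contra h
      have h2' : (if e (w', m') ∈ J ξ then (1 : ℝ) else 0) = 1 := h2
      rw [if_neg h] at h2'
      norm_num at h2'
    have hww' : (w : ℕ) ≠ (w' : ℕ) := fun h => hww (Subtype.ext h)
    have hf1 : f ξ (e (w, m)) = ((w : ℕ), 1 + (P : ℤ) * ((ξ (w, m) : Fin X) : ℕ)) := by
      show (((e.symm (e (w, m))).1 : ℕ), 1 + (P : ℤ) * (((ξ (e.symm (e (w, m))) : Fin X) : ℕ) : ℤ)) = _
      rw [Equiv.symm_apply_apply]
    have hf2 : f ξ (e (w', m')) = ((w' : ℕ), 1 + (P : ℤ) * ((ξ (w', m') : Fin X) : ℕ)) := by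
      show (((e.symm (e (w', m'))).1 : ℕ), 1 + (P : ℤ) * (((ξ (e.symm (e (w', m'))) : Fin X) : ℕ) : ℤ)) = _
      rw [Equiv.symm_apply_apply]
    have hne : f ξ (e (w, m)) ≠ f ξ (e (w', m')) := by
      rw [hf1, hf2]
      intro h
      exact hww' (congrArg Prod.fst h)
    have hadm2 : Adm ![f ξ (e (w, m)), f ξ (e (w', m'))] := by
      intro p hp
      obtain ⟨n, hn⟩ := hadm ξ p hp
      refine ⟨n, ?_⟩
      intro l
      fin_cases l
      · exact hn _
      · exact hn _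
    have hpair := hPRT (f ξ (e (w, m))) (f ξ (e (w', m'))) (hs _) (hs _) hne hadm2 (by
      intro N
      obtain ⟨n, hn, hpr⟩ := hJ1 ξ N
      exact ⟨n, hn, hpr _ hm1, hpr _ hm2⟩)
    rw [hf1, hf2] at hpair
    have hpair2 : TrueCase ((w' : ℕ) / Nat.gcd w w') ((w : ℕ) / Nat.gcd w w')
      ((((w' : ℕ) : ℤ) * (1 + (P : ℤ) * (((ξ (w, m) : Fin X) : ℕ) : ℤ)) -
        ((w : ℕ) : ℤ) * (1 + (P : ℤ) * (((ξ (w', m') : Fin X) : ℕ) : ℤ))) / ((Nat.gcd (w : ℕ) (w' : ℕ) : ℕ) : ℤ)) := hpair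
    rw [ MOD_alg (w : ℕ) (w' : ℕ) P ((ξ (w, m) : Fin X) : ℕ) ((ξ (w', m') : Fin X) : ℕ) (hWpos _ w.2)] at hpair2
    exact hpair2
  · -- the mean
    have hcardξ : Fintype.card (↥W × Fin H → Fin X) = X ^ k := by
      rw [Fintype.card_fun, Fintype.card_fin, hcard]
    have hsum : ∀ ξ : ↥W × Fin H → Fin X, (∑ p, (if e p ∈ J ξ then (1 : ℝ) else 0)) = #(J ξ) := by
      intro ξ
      rw [Equiv.sum_comp e (fun i => if i ∈ J ξ then (1 : ℝ) else 0)]
      rw [Finset.sum_ite_mem, Finset.univ_inter]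
      simp
    -- bad tuples
    have hbad : (#{ξ : ↥W × Fin H → Fin X | ¬ Many (f ξ)} : ℝ) ≤ C * (X : ℝ) ^ k * (X : ℝ) ^ (-δ) := by
      let F : Fin k → Finset (ℕ × ℤ) := fun i => (Finset.univ : Finset (Fin X)).image (fun x : Fin X => (s i, 1 + (P : ℤ) * ((x : ℕ) : ℤ)))
      have hF : ∀ i, #(F i) = X := by
        intro i
        show #((Finset.univ : Finset (Fin X)).image (fun x : Fin X => (s i, 1 + (P : ℤ) * ((x : ℕ) : ℤ)))) = X
        rw [Finset.card_image_of_injective]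
        · simp
        · intro x y hxy
          simp only [Prod.mk.injEq, true_and, add_right_inj] at hxy
          have h1 : (P : ℤ) ≠ 0 := by exact_mod_cast hPpos.ne'
          have h2 := mul_left_cancel₀ h1 hxy
          apply Fin.ext
          exact_mod_cast h2
      have h1 := hQk F X hX1 (fun i => (hF i).ge) (by
        intro i g hg
        obtain ⟨x, -, rfl⟩ := Finset.mem_image.mp hg
        exact hs i)
      have h2 : (∏ i, (#(F i) : ℝ)) = (X : ℝ) ^ k := by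
        simp [hF]
      rw [h2] at h1
      refine le_trans ?_ h1
      apply Nat.cast_le.mpr
      apply Finset.card_le_card_of_injOn f
      · intro ξ hξ
        have hξ' := Finset.mem_filter.mp (Finset.mem_coe.mp hξ)
        apply Finset.mem_coe.mpr
        rw [Finset.mem_filter]
        refine ⟨?_, hadm ξ, hξ'.2⟩
        rw [Fintype.mem_piFinset]
        intro i
        exact Finset.mem_image.mpr ⟨ξ (e.symm i), Finset.mem_univ _, rfl⟩
      · intro ξ _ ζ _ hxy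
        funext p
        have h3 := congrFun hxy (e p)
        have h4 : (1 : ℤ) + (P : ℤ) * (((ξ (e.symm (e p)) : Fin X) : ℕ) : ℤ) =
          1 + (P : ℤ) * (((ζ (e.symm (e p)) : Fin X) : ℕ) : ℤ) := congrArg Prod.snd h3
        rw [Equiv.symm_apply_apply] at h4
        have h5 : (P : ℤ) ≠ 0 := by exact_mod_cast hPpos.ne'
        have h6 := mul_left_cancel₀ h5 (add_left_cancel h4)
        apply Fin.ext
        exact_mod_cast h6
    have hbad2 : (#{ξ : ↥W × Fin H → Fin X | ¬ Many (f ξ)} : ℝ) ≤ η * (X : ℝ) ^ k := by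
      have h2 := hX₀ X hX2
      have h3 : (0 : ℝ) ≤ (X : ℝ) ^ k := by positivity
      nlinarith
    have htot : (#{ξ : ↥W × Fin H → Fin X | Many (f ξ)} : ℝ) + #{ξ : ↥W × Fin H → Fin X | ¬ Many (f ξ)} = (X : ℝ) ^ k := by
      have h3 := Finset.card_filter_add_card_filter_not (s := (Finset.univ : Finset (↥W × Fin H → Fin X))) (fun ξ => Many (f ξ))
      rw [Finset.card_univ, hcardξ] at h3
      exact_mod_cast h3
    have hlow : (1 / 4 + 1 / 500000 : ℝ) * k * (#{ξ : ↥W × Fin H → Fin X | Many (f ξ)} : ℝ) ≤ ∑ ξ : ↥W × Fin H → Fin X, (#(J ξ) : ℝ) := by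
      calc (1 / 4 + 1 / 500000 : ℝ) * k * (#{ξ : ↥W × Fin H → Fin X | Many (f ξ)} : ℝ)
          = ∑ ξ : ↥W × Fin H → Fin X with Many (f ξ), (1 / 4 + 1 / 500000 : ℝ) * k := by
            rw [Finset.sum_const, nsmul_eq_mul]; ring
        _ ≤ ∑ ξ : ↥W × Fin H → Fin X with Many (f ξ), (#(J ξ) : ℝ) := by
            apply Finset.sum_le_sum
            intro ξ hξ
            exact (hJ2 ξ (Finset.mem_filter.mp hξ).2).le
        _ ≤ ∑ ξ : ↥W × Fin H → Fin X, (#(J ξ) : ℝ) := by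
            apply Finset.sum_le_sum_of_subset_of_nonneg (Finset.filter_subset _ _)
            intro ξ _ _
            positivity
    unfold mean
    rw [hcardξ, hkr]
    have hsum2 : (∑ ξ : ↥W × Fin H → Fin X, ∑ p, (if e p ∈ J ξ then (1 : ℝ) else 0)) = ∑ ξ : ↥W × Fin H → Fin X, (#(J ξ) : ℝ) :=
      Finset.sum_congr rfl (fun ξ _ => hsum ξ)
    rw [hsum2]
    have hXk : (0 : ℝ) < (X : ℝ) ^ k := by positivity
    rw [Nat.cast_pow, le_div_iff₀ hXk]
    refine le_trans ?_ hlow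
    have hkk : (0 : ℝ) ≤ k := by positivity
    have e1 : (1 / 4 + 1 / 500000 : ℝ) * k * (#{ξ : ↥W × Fin H → Fin X | Many (f ξ)} : ℝ) ≥
      (1 / 4 + 1 / 500000 : ℝ) * k * ((X : ℝ) ^ k - η * (X : ℝ) ^ k) := by
      apply mul_le_mul_of_nonneg_left _ (by positivity)
      linarith
    have e2 : (0 : ℝ) ≤ (1 - (1 / 4 + 1 / 500000)) * (k * (η * (X : ℝ) ^ k)) := by
      have : (0 : ℝ) ≤ k * (η * (X : ℝ) ^ k) := by positivity
      have h9 : (0 : ℝ) ≤ 1 - (1 / 4 + 1 / 500000) := by norm_num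
      exact mul_nonneg h9 this
    linarith

end Pool.Agent.FR
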