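import Pool.Agent.helper93.FR.Spec

namespace Pool.Agent.helper93.FR

open BigOperators

theorem Hit_sum (r k : ℕ) (m : Fin r → ℕ) (j : Fin k) :
    (∑ γ : Fin k → Fin r, m (γ j)) * r = r ^ k * ∑ i, m i := by
  have h := Fintype.sum_piFinset_apply (α := ℕ) m (Finset.univ : Finset (Fin r)) j
  have hk : 1 ≤ k := by
    have := j.2
    omega
  simp only [Fintype.piFinset_univ, Finset.card_univ, Fintype.card_fin, smul_eq_mul] at h
  rw [h]
  obtain ⟨k', rfl⟩ : ∃ k', k = k' + 1 := ⟨k - 1, by omega⟩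
  simp only [Nat.add_sub_cancel]
  ring

theorem Hit_markov (r k : ℕ) (m : Fin r → ℕ) :
    2 * ((Finset.univ : Finset (Fin k → Fin r)).filter
      fun γ => 2 * k * ∑ i, m i < (∑ j, m (γ j)) * r).card ≤ r ^ k := by
  classical
  set A := (Finset.univ : Finset (Fin k → Fin r)).filter
      fun γ => 2 * k * ∑ i, m i < (∑ j, m (γ j)) * r with hA
  set M := ∑ i, m i with hM
  have h1 : A.card * (2 * k * M + 1) ≤ ∑ γ : Fin k → Fin r, (∑ j, m (γ j)) * r := by
    calc A.card * (2 * k * M + 1) = ∑ γ ∈ A, (2 * k * M + 1) := by simp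
      _ ≤ ∑ γ ∈ A, (∑ j, m (γ j)) * r := by
          apply Finset.sum_le_sum
          intro γ hγ
          have h7 : 2 * k * M < (∑ j, m (γ j)) * r := (Finset.mem_filter.mp hγ).2
          exact h7
      _ ≤ ∑ γ : Fin k → Fin r, (∑ j, m (γ j)) * r :=
          Finset.sum_le_sum_of_subset (Finset.subset_univ _)
  have h2 : ∑ γ : Fin k → Fin r, (∑ j, m (γ j)) * r = k * (r ^ k * M) := by
    rw [← Finset.sum_mul, Finset.sum_comm, Finset.sum_mul]
    rw [Finset.sum_congr rfl fun j _ => Hit_sum r k m j]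
    rw [Finset.sum_const, Finset.card_univ, Fintype.card_fin, smul_eq_mul]
  rw [h2] at h1
  rcases Nat.eq_zero_or_pos (k * M) with h0 | h0
  · have : k * (r ^ k * M) = 0 := by
      rw [show k * (r ^ k * M) = (k * M) * r ^ k by ring, h0, zero_mul]
    rw [this] at h1
    have h3 : A.card = 0 := by
      rcases Nat.eq_zero_or_pos A.card with h | h
      · exact h
      · nlinarith
    rw [h3]
    simp
  · have h3 : (2 * A.card) * (k * M) ≤ r ^ k * (k * M) := by nlinarith
    exact Nat.le_of_mul_le_mul_right h3 h0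

theorem Hit_miss (r k : ℕ) (hr : 1 ≤ r) (B : Finset (Fin r)) :
    (((Finset.univ : Finset (Fin k → Fin r)).filter fun γ => ∀ j, γ j ∉ B).card : ℝ) =
      (r : ℝ) ^ k * (1 - (B.card : ℝ) / r) ^ k := by
  classical
  have h1 : ((Finset.univ : Finset (Fin k → Fin r)).filter fun γ => ∀ j, γ j ∉ B) =
      Fintype.piFinset fun _ => Bᶜ := by
    ext γ
    simp
  rw [h1, Fintype.card_piFinset_const, Finset.card_compl, Fintype.card_fin]
  have hc : B.card ≤ r := by
    simpa using Finset.card_le_univ B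
  rw [← mul_pow, Nat.cast_pow, Nat.cast_sub hc]
  congr 1
  have : (r : ℝ) ≠ 0 := by positivity
  field_simp

theorem Hit : Hit_stmt := by
  classical
  intro r k hr hk ι _ B m hs
  by_contra hcon
  push Not at hcon
  set A := (Finset.univ : Finset (Fin k → Fin r)).filter
      fun γ => 2 * k * ∑ i, m i < (∑ j, m (γ j)) * r with hA
  have hcov : (Finset.univ : Finset (Fin k → Fin r)) ⊆
      A ∪ Finset.univ.biUnion fun t : ι =>
        (Finset.univ : Finset (Fin k → Fin r)).filter fun γ => ∀ j, γ j ∉ B t := by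
    intro γ _
    rw [Finset.mem_union]
    by_cases h : (∑ j, m (γ j)) * r ≤ 2 * k * ∑ i, m i
    · right
      obtain ⟨t, ht⟩ := hcon γ h
      rw [Finset.mem_biUnion]
      exact ⟨t, Finset.mem_univ _, Finset.mem_filter.mpr ⟨Finset.mem_univ _, ht⟩⟩
    · left
      exact Finset.mem_filter.mpr ⟨Finset.mem_univ _, not_le.mp h⟩
  have h1 := (Finset.card_le_card hcov).trans (Finset.card_union_le _ _)
  have h2 := h1.trans (Nat.add_le_add_left Finset.card_biUnion_le _)
  have h3 : (Finset.univ : Finset (Fin k → Fin r)).card = r ^ k := by simp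
  rw [h3] at h2
  have h4 : ((r ^ k : ℕ) : ℝ) ≤ (A.card : ℝ) + ∑ t : ι,
      (((Finset.univ : Finset (Fin k → Fin r)).filter fun γ => ∀ j, γ j ∉ B t).card : ℝ) := by
    exact_mod_cast h2
  rw [Finset.sum_congr rfl fun t _ => Hit_miss r k hr (B t), ← Finset.mul_sum] at h4
  have h5 : 2 * (A.card : ℝ) ≤ (r : ℝ) ^ k := by
    exact_mod_cast Hit_markov r k m
  have hpos : (0 : ℝ) < (r : ℝ) ^ k := by positivity
  have h6 := mul_lt_mul_of_pos_left hs hpos
  push_cast at h4
  linarith

end Pool.Agent.helper93.FR
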