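import Pool.Agent.helper95.FR.Spec

/-!
# fr:JOI: the join of all normal subgroups in the class
-/

set_option autoImplicit false

namespace Pool.Agent.helper95.FR

open scoped commutatorElement

universe u

/-- the trivial subgroup is in the class -/
theorem JOI_bot (G : Type u) [Group G] : KS (⊥ : Subgroup G) := by
  constructor
  · intro x hx y hy
    rw [Subgroup.mem_bot] at hx hy
    subst hx hy
    refine ⟨1, ⟨1, Subgroup.one_mem _, 1, Subgroup.one_mem _, by simp⟩, ?_⟩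
    intro g _
    simp
  · intro x hx
    rw [Subgroup.mem_bot] at hx
    subst hx
    exact ⟨1, Subgroup.one_mem _, 1, Subgroup.one_mem _, 1, Subgroup.one_mem _, by simp⟩
  · intro x _ a ha b hb _ _
    rw [Subgroup.mem_bot] at ha hb
    subst ha hb
    intro g _
    simp

/-- a subgroup as a group -/
theorem JOI_iff (hTR : TR_stmt.{u}) (G : Type u) [Group G] (N : Subgroup G) :
    KS (⊤ : Subgroup N) ↔ KS N := by
  rw [hTR G N ⊤, ← MonoidHom.range_eq_map, Subgroup.range_subtype]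

/-- two normal subgroups in the class -/
theorem JOI_sup (hTR : TR_stmt.{u}) (hJD : JD_stmt.{u}) (G : Type u) [Group G] (N₁ N₂ : Subgroup G)
    (h₁ : N₁.Normal) (h₂ : N₂.Normal) (k₁ : KS N₁) (k₂ : KS N₂) : KS (N₁ ⊔ N₂) := by
  rw [← JOI_iff hTR]
  refine hJD (↥(N₁ ⊔ N₂)) (N₁.subgroupOf (N₁ ⊔ N₂)) (N₂.subgroupOf (N₁ ⊔ N₂)) ⟨?_, ?_, ?_, ?_, ?_⟩
  · exact h₁.subgroupOf _
  · exact h₂.subgroupOf _
  · rw [hTR, Subgroup.map_subgroupOf_eq_of_le le_sup_left]
    exact k₁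
  · rw [hTR, Subgroup.map_subgroupOf_eq_of_le le_sup_right]
    exact k₂
  · rw [← Subgroup.subgroupOf_sup le_sup_left le_sup_right, Subgroup.subgroupOf_self]

theorem JOI (hTR : TR_stmt.{u}) (hJD : JD_stmt.{u}) (hDU : DU_stmt.{u}) : JOI_stmt.{u} := by
  intro G _ hG
  have hset : {N : Subgroup G | N.Normal ∧ KS (⊤ : Subgroup N)} = {N : Subgroup G | N.Normal ∧ KS N} := by
    ext N
    exact and_congr_right fun _ => JOI_iff hTR G N
  rw [hset] at hG
  have hdir : ∀ N ∈ {N : Subgroup G | N.Normal ∧ KS N}, ∀ N' ∈ {N : Subgroup G | N.Normal ∧ KS N},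
      ∃ N'' ∈ {N : Subgroup G | N.Normal ∧ KS N}, N ≤ N'' ∧ N' ≤ N'' := by
    rintro N ⟨hN, kN⟩ N' ⟨hN', kN'⟩
    refine ⟨N ⊔ N', ⟨?_, JOI_sup hTR hJD G N N' hN hN' kN kN'⟩, le_sup_left, le_sup_right⟩
    exact Subgroup.sup_normal N N'
  refine hDU G {N : Subgroup G | N.Normal ∧ KS N} (fun N hN => hN) hdir fun g => ?_
  have hne : {N : Subgroup G | N.Normal ∧ KS N}.Nonempty := ⟨⊥, Subgroup.normal_bot, JOI_bot G⟩
  have hg : g ∈ sSup {N : Subgroup G | N.Normal ∧ KS N} := by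
    rw [hG]
    exact Subgroup.mem_top g
  exact (Subgroup.mem_sSup_of_directedOn hne (fun N hN N' hN' => hdir N hN N' hN')).1 hg

end Pool.Agent.helper95.FR
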